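import Mathlib
import Pool.Agent.N850.Art.Main
import Pool.Agent.N850.Art.Asym

/-!
# Artin L-functions of balanced characters of symmetric groups at zeros of large order

`Pool.Agent.H541R3.ART.Irr G` is the set of irreducible complex characters of the finite group `G`.

`Pool.Agent.H541R3.ART.ArtinData G s₀` is a family of functions with the formal properties of the
Artin L-functions of a Galois extension `E/K` with group `G` near a point `s₀ ≠ 1`: functions
`L χ` for the irreducible characters `χ` of `G` and `Lin H ψ` for the linear characters `ψ` of the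
subgroups `H`, such that `L χ` is meromorphic and not identically zero near `s₀` (Brauer), `Lin H ψ`
has no pole at `s₀` (Artin reciprocity and Hecke), and `Lin H ψ` is the product of the
`L χ ^ ⟨χ|_H, ψ⟩` (induction). In particular `Lin ⊥ 1` stands for the Dedekind zeta function of `E`.

`Pool.Agent.N850.Art.Central j`: the group `Γ` is generated by the image of `j : S_n → Γ` and the
elements which commute with it, for example `Γ = S_n × K` for a finite group `K`.

`Pool.Agent.N850.Art.Balanced j ι a b X`: `X` is a character of `Γ`, its restriction to `G` along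
`ι` is irreducible, and its restriction to `S_n` along `j` contains neither the trivial character of
the symmetric group of `a + 1` points nor the sign character of the symmetric group of `b + 1`
points. For the character `χ_λ` of `S_n` of the partition `λ` this says that `λ` has at most `b`
parts, all of them at most `a`; the largest hook length of `λ` is then at most `a + b - 1`.

Proof. Let `h = a + b - 1`. An identity in the group algebra writes the sum of all long cycles on a
set of points as an alternating sum of products of a column symmetrizer and a row symmetrizer; so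
`X` vanishes on all elements whose component in `S_n` has a cycle longer than `h` (for `χ_λ` this is
a consequence of the rule of Murnaghan and Nakayama). At most `n! / ⌊n / h⌋!` permutations have no
cycle longer than `h`. The orders of the L-functions are the multiplicities of the characters in a
class function which is bounded by `r`, and Bessel's inequality finishes the proof.
-/

set_option autoImplicit false

open Equiv Pool.Agent.H541R3.ART Pool.Agent.N850.Art

/-- (1) Let `E/K` be Galois with group `G ≤ Γ` and let `ζ_E` have order `r` at `s₀`. Let `X` run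
through characters of `Γ` as above with pairwise different irreducible restrictions to `G`. Then
`⌊n / (a + b - 1)⌋! |G| ∑ (ord L(s, X|_G))² ≤ |Γ| r²`.

(2) For `C > 0` and all large `n`: if `a + b ≤ C √n` and `r² |Γ| ≤ |G| n ^ (2 √n / (5 C))`, then
`L(s, X|_G)` is holomorphic and nonzero at `s₀`.

(3) The same holds for `D > 0` and all large `n` if `(a + b) (D + 1) log n ≤ n log log n` and
`r² |Γ| ≤ |G| n ^ D`. -/
theorem Pool.Agent.Results.MP_d2121a_nt.BalancedCharacters.result :
    (∀ (n a b : ℕ), 1 ≤ a → 1 ≤ b →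
      ∀ (Γ G : Type) [Group Γ] [Finite Γ] [Group G] [Finite G]
        (j : Perm (Fin n) →* Γ) (ι : G →* Γ), Central j → Function.Injective ι →
      ∀ (s₀ : ℂ) (A : ArtinData G s₀) (r : ℕ),
        meromorphicOrderAt (A.Lin ⊥ 1) s₀ = (r : WithTop ℤ) →
      ∀ F : Finset (Γ → ℂ), (∀ X ∈ F, Balanced j ι a b X) →
        (∀ X ∈ F, ∀ Y ∈ F, (∀ g, X (ι g) = Y (ι g)) → X = Y) →
      ∀ m : (Γ → ℂ) → ℤ,
        (∀ X ∈ F, meromorphicOrderAt (A.L fun g => X (ι g)) s₀ = (m X : WithTop ℤ)) →
        (n / (a + b - 1)).factorial * Nat.card G * ∑ X ∈ F, m X ^ 2 ≤ Nat.card Γ * r ^ 2) ∧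
    (∀ C : ℝ, 0 < C → ∃ N : ℕ, ∀ n ≥ N, ∀ a b : ℕ, 1 ≤ a → 1 ≤ b → (a + b : ℝ) ≤ C * √n →
      ∀ (Γ G : Type) [Group Γ] [Finite Γ] [Group G] [Finite G]
        (j : Perm (Fin n) →* Γ) (ι : G →* Γ), Central j → Function.Injective ι →
      ∀ (s₀ : ℂ) (A : ArtinData G s₀) (r : ℕ),
        meromorphicOrderAt (A.Lin ⊥ 1) s₀ = (r : WithTop ℤ) →
        (r : ℝ) ^ 2 * Nat.card Γ ≤ Nat.card G * (n : ℝ) ^ (2 * √n / (5 * C)) →
      ∀ X : Γ → ℂ, Balanced j ι a b X → meromorphicOrderAt (A.L fun g => X (ι g)) s₀ = 0) ∧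
    (∀ D : ℝ, 0 < D → ∃ N : ℕ, ∀ n ≥ N, ∀ a b : ℕ, 1 ≤ a → 1 ≤ b →
        (a + b : ℝ) * ((D + 1) * Real.log n) ≤ n * Real.log (Real.log n) →
      ∀ (Γ G : Type) [Group Γ] [Finite Γ] [Group G] [Finite G]
        (j : Perm (Fin n) →* Γ) (ι : G →* Γ), Central j → Function.Injective ι →
      ∀ (s₀ : ℂ) (A : ArtinData G s₀) (r : ℕ),
        meromorphicOrderAt (A.Lin ⊥ 1) s₀ = (r : WithTop ℤ) →
        (r : ℝ) ^ 2 * Nat.card Γ ≤ Nat.card G * (n : ℝ) ^ D →
      ∀ X : Γ → ℂ, Balanced j ι a b X → meromorphicOrderAt (A.L fun g => X (ι g)) s₀ = 0) := by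
  have key : ∀ (n a b : ℕ), 1 ≤ a → 1 ≤ b → ∀ B : ℝ, B < ((n / (a + b - 1)).factorial : ℝ) →
      ∀ (Γ G : Type) [Group Γ] [Finite Γ] [Group G] [Finite G]
        (j : Perm (Fin n) →* Γ) (ι : G →* Γ), Central j → Function.Injective ι →
      ∀ (s₀ : ℂ) (A : ArtinData G s₀) (r : ℕ),
        meromorphicOrderAt (A.Lin ⊥ 1) s₀ = (r : WithTop ℤ) →
        (r : ℝ) ^ 2 * Nat.card Γ ≤ Nat.card G * B →
      ∀ X : Γ → ℂ, Balanced j ι a b X → meromorphicOrderAt (A.L fun g => X (ι g)) s₀ = 0 := by
    intro n a b ha hb B hB Γ G _ _ _ _ j ι hj hι s₀ A r hr hr2 X hX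
    refine order_zero hj hι ha hb A hr hX ?_
    have h1 : (0 : ℝ) < Nat.card G := by exact_mod_cast Nat.card_pos
    have h2 : (Nat.card Γ : ℝ) * (r : ℝ) ^ 2
        < ((n / (a + b - 1)).factorial : ℝ) * Nat.card G := by nlinarith
    exact_mod_cast h2
  refine ⟨?_, ?_, ?_⟩
  · intro n a b ha hb Γ G _ _ _ _ j ι hj hι s₀ A r hr F hF hinj m hm
    exact orders_le hj hι ha hb A hr F hF hinj m hm
  · intro C hC
    obtain ⟨N, hN⟩ := regime_sqrt C hC
    refine ⟨N, fun n hn a b ha hb hab => ?_⟩
    refine key n a b ha hb _ (hN n hn (a + b - 1) (by omega) (le_trans ?_ hab))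
    exact_mod_cast (by omega : a + b - 1 ≤ a + b)
  · intro D hD
    obtain ⟨N, hN⟩ := regime_pow D hD
    refine ⟨max N 1, fun n hn a b ha hb hab => ?_⟩
    refine key n a b ha hb _ (hN n (le_of_max_le_left hn) (a + b - 1) (by omega) (le_trans ?_ hab))
    have h1 : ((a + b - 1 : ℕ) : ℝ) ≤ a + b := by
      exact_mod_cast (by omega : a + b - 1 ≤ a + b)
    refine mul_le_mul_of_nonneg_right h1 ?_
    have h2 : (1 : ℝ) ≤ n := by exact_mod_cast le_of_max_le_right hn
    exact mul_nonneg (by linarith) (Real.log_nonneg h2)
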