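import Mathlib
import Pool.Agent.N850.Dur.Almost

/-!
# Artin L-functions of symmetric groups: quasi-polynomially many exceptional characters

`Pool.Agent.H541R3.ART.Irr G` is the set of irreducible complex characters of the finite group `G`.

`Pool.Agent.H541R3.ART.ArtinData G s₀` is a family of functions with the formal properties of the
Artin L-functions of a Galois extension `E/F` with group `G` near a point `s₀ ≠ 1`: functions
`L χ` for the irreducible characters `χ` of `G` and `Lin H ψ` for the linear characters `ψ` of the
subgroups `H`, such that `L χ` is meromorphic and not identically zero near `s₀` (Brauer), `Lin H ψ`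
has no pole at `s₀` (Artin reciprocity and Hecke), and `Lin H ψ` is the product of the
`L χ ^ ⟨χ|_H, ψ⟩` (induction). In particular `Lin ⊥ 1` stands for the Dedekind zeta function of `E`.

`Pool.Agent.N850.Dur.YoungFree t χ`: the character `χ` of `S_n` contains none of the linear
characters `1 ⊗ ⋯ ⊗ 1 ⊗ sign ⊗ ⋯ ⊗ sign` (`t` factors of each kind) of the Young subgroups with
`2 t` factors; the inner sum runs over the permutations `σ` which preserve the colouring `c` and fix
`P` pointwise, the outer sum over the permutations `τ` which preserve `c` and fix the complement of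
`P` pointwise (`Pool.Agent.N850.Dur.Sc`). For the character `χ_λ` this says that the side of the
Durfee square of the partition `λ` is larger than `t` (Berele and Regev).

Proof. The order of the L-function of `χ ⊗ κ` is at most `r` times the mean of `|χ|`. The
permutations with more than `t` cycles are so rare that they contribute at most `1 / (2 R)` to this
mean, by the Cauchy-Schwarz inequality. The characters for which the contribution of the
permutations with at most `t` cycles is at least `1 / (2 R)` are few by the orthogonality of the
columns of the character table, since there are at most `C(n + t, t)` classes of such permutations;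
and `YoungFree` characters vanish on all of them.
-/

set_option autoImplicit false

open Equiv Pool.Agent.H541R3.ART Pool.Agent.N850.Dur

/-- (1) Let `4 R² C(n + k - 1, n) ≤ k ^ (t + 1)` for some `k ≥ 1`. There is a set `X` of at most
`4 R² C(n + t, t)` irreducible characters of `S_n` such that no character in `X` is `YoungFree`,
and such that the following holds for all irreducible characters `χ` of `S_n` outside `X`, all
finite groups `K`, all Galois extensions with group `G = S_n × K`, all functions `κ` on `K` for
which `χ ⊗ κ` is an irreducible character of `G`, and all `s₀` at which the zeta function of the top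
field has order at most `R`: the L-function of `χ ⊗ κ` is holomorphic and nonzero at `s₀`.

(2) If `R ≤ n ^ D`, the same holds with a set `X` of at most
`(n + 1) ^ ((2 D + 1) log₂ (n + 1) + 4 D + 4)` characters. -/
theorem Pool.Agent.Results.MP_d2121a_nt.FewExceptions.result :
    (∀ n t k R : ℕ, 1 ≤ k → 4 * R ^ 2 * (n + k - 1).choose n ≤ k ^ (t + 1) →
      ∃ X : Finset (Perm (Fin n) → ℂ), X.card ≤ 4 * R ^ 2 * (n + t).choose t ∧
        (∀ χ ∈ X, χ ∈ Irr (Perm (Fin n)) ∧ ¬ YoungFree t χ) ∧
        ∀ χ ∈ Irr (Perm (Fin n)), χ ∉ X →
          ∀ (K G : Type) [Group K] [Finite K] [Group G] [Finite G] (e : G ≃* Perm (Fin n) × K)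
            (κ : K → ℂ), (fun g => χ (e g).1 * κ (e g).2) ∈ Irr G →
          ∀ (s₀ : ℂ) (A : ArtinData G s₀) (r : ℕ), r ≤ R →
            meromorphicOrderAt (A.Lin ⊥ 1) s₀ = (r : WithTop ℤ) →
            meromorphicOrderAt (A.L fun g => χ (e g).1 * κ (e g).2) s₀ = 0) ∧
    (∀ n D R : ℕ, 1 ≤ n → R ≤ n ^ D →
      ∃ X : Finset (Perm (Fin n) → ℂ),
        X.card ≤ (n + 1) ^ ((2 * D + 1) * Nat.log 2 (n + 1) + 4 * D + 4) ∧
        (∀ χ ∈ X, χ ∈ Irr (Perm (Fin n)) ∧
          ¬ YoungFree ((2 * D + 1) * (Nat.log 2 (n + 1) + 1) + 1) χ) ∧
        ∀ χ ∈ Irr (Perm (Fin n)), χ ∉ X →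
          ∀ (K G : Type) [Group K] [Finite K] [Group G] [Finite G] (e : G ≃* Perm (Fin n) × K)
            (κ : K → ℂ), (fun g => χ (e g).1 * κ (e g).2) ∈ Irr G →
          ∀ (s₀ : ℂ) (A : ArtinData G s₀) (r : ℕ), r ≤ R →
            meromorphicOrderAt (A.Lin ⊥ 1) s₀ = (r : WithTop ℤ) →
            meromorphicOrderAt (A.L fun g => χ (e g).1 * κ (e g).2) s₀ = 0) :=
  ⟨fun n t k R hk hkR => almost n t k R hk hkR, fun n D R hn hR => almost_pow n D R hn hR⟩
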