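import Mathlib
import Pool.Agent.N850.Reg.Main

/-!
# Artin L-functions of symmetric groups: wide regions without zeros and poles

`Pool.Agent.H541R3.ART.Irr G` is the set of irreducible complex characters of the finite group `G`.

`Pool.Agent.H541R3.ART.ArtinData G s₀` is a family of functions with the formal properties of the
Artin L-functions of a Galois extension `E/K` with group `G` near a point `s₀ ≠ 1`: functions
`L χ` for the irreducible characters `χ` of `G` and `Lin H ψ` for the linear characters `ψ` of the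
subgroups `H`, such that `L χ` is meromorphic and not identically zero near `s₀` (Brauer), `Lin H ψ`
has no pole at `s₀` (Artin reciprocity and Hecke), and `Lin H ψ` is the product of the
`L χ ^ ⟨χ|_H, ψ⟩` (induction). In particular `Lin ⊥ 1` stands for the Dedekind zeta function of `E`.

`Pool.Agent.N850.Art.Central j`: the group `Γ` is generated by the image of `j : S_n → Γ` and the
elements which commute with it, for example `Γ = S_n × K` for a finite group `K`.

`Pool.Agent.N850.Dur.Thick j ι t X`: `X` is a character of `Γ`, its restriction to `G` along `ι` is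
irreducible, and its restriction to `S_n` along `j` contains none of the linear characters
`1 ⊗ ⋯ ⊗ 1 ⊗ sign ⊗ ⋯ ⊗ sign` (`t` factors of each kind) of the Young subgroups with `2 t` factors.
`Pool.Agent.N850.Dur.YoungFree t χ` is this condition for the character `χ` of `S_n`. For the
character `χ_λ` of the partition `λ` it says that the side of the Durfee square of `λ` is larger
than `t` (Berele and Regev); for fixed `c < √6 / π · log 2` and `t = c √n` this is the case for almost
all partitions.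

The known regions without zeros and poles of all the L-functions of a Galois extension `E/K` (except
perhaps for one real zero) consist of the points with `(1 - Re s) log |d_E| < C` near `s = 1`, and
similarly at other heights (Stark). For the thick characters of `S_n` the constant `C` is replaced
here by `n ^ (c √n)`. Nothing is assumed about the orders of the zeros.
-/

set_option autoImplicit false

namespace Pool.Agent.Results.MP_d2121a_nt.WideRegion

open NumberField Equiv Pool.Agent.H541R3.ART Pool.Agent.N850.Art Pool.Agent.N850.Dur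

/-- `Z` is the continuation of the Dedekind zeta function of `E` to all `s ≠ 1`. -/
def IsZeta (E : Type) [Field E] [NumberField E] (Z : ℂ → ℂ) : Prop :=
  (∀ s : ℂ, s ≠ 1 → DifferentiableAt ℂ Z s) ∧ ∀ s : ℂ, 1 < s.re → Z s = dedekindZeta E s

/-- `log |d_E|` -/
noncomputable def logDisc (E : Type) [Field E] [NumberField E] : ℝ :=
  Real.log (((discr E).natAbs : ℕ) : ℝ)

/-- `log |d_E| + [E : ℚ] log (1 + |t|) / 2 + 1 / (2 |t|)` -/
noncomputable def zetaLog (E : Type) [Field E] [NumberField E] (t : ℝ) : ℝ :=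
  logDisc E + Module.finrank ℚ E / 2 * Real.log (1 + |t|) + 1 / (2 * |t|)

/-- The region: the points `s ≠ 1` with `0 < Re s ≤ 1` and `(1 - Re s) log |d_E| ≤ 2 x` if `s` is real,
`(1 - Re s) (log |d_E| + [E : ℚ] log (1 + |Im s|) / 2 + 1 / (2 |Im s|)) ≤ x` if `s` is not real. -/
structure InRegion (E : Type) [Field E] [NumberField E] (x : ℝ) (s : ℂ) : Prop where
  ne_one : s ≠ 1
  pos : 0 < s.re
  le_one : s.re ≤ 1
  real : s.im = 0 → (1 - s.re) * (logDisc E / 2) ≤ x
  nonreal : s.im ≠ 0 → (1 - s.re) * zetaLog E s.im ≤ x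

/-- `A` belongs to a Galois extension with top field `E`: the function `Lin ⊥ 1` of `A` has the same
order at `s₀` as the zeta function of `E`. -/
def HasTop (E : Type) [Field E] [NumberField E] {G : Type} [Group G] {s₀ : ℂ}
    (A : ArtinData G s₀) : Prop :=
  1 < Module.finrank ℚ E ∧ ∃ Z : ℂ → ℂ, IsZeta E Z ∧
    meromorphicOrderAt (A.Lin ⊥ 1) s₀ = meromorphicOrderAt Z s₀

lemma order_le {E : Type} [Field E] [NumberField E] {G : Type} [Group G] [Finite G] {s₀ : ℂ}
    {A : ArtinData G s₀} (hA : HasTop E A) {x : ℝ} (hs : InRegion E x s₀) :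
    ∃ r : ℕ, meromorphicOrderAt (A.Lin ⊥ 1) s₀ = (r : WithTop ℤ) ∧ (r : ℝ) ≤ (1 + √x) ^ 2 := by
  obtain ⟨hn, Z, hZ, h1⟩ := hA
  obtain ⟨r, hr⟩ := Pool.Agent.N850.Reg.exists_ord A
  exact ⟨r, hr, Pool.Agent.N850.Reg.order_le hn hZ hs.ne_one hs.pos hs.le_one hs.real hs.nonreal
    (by rw [← h1, hr])⟩

/-- (1) Let `E/K` be Galois with group `G ≤ Γ`. If
`C(n + k - 1, n) |Γ| (1 + √x) ^ 4 < k ^ (t + 1) |G|` for some `k ≥ 1`, then for every character `X` of
`Γ` as above `L(s, X|_G)` is holomorphic and nonzero at all points `s₀` of the region of `x`.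

(2) For every `c > 0` there is `N` such that for all `n ≥ N`, `t ≥ c √n` and `|Γ| ≤ 2 |G|` (for example
for `G = S_n × K` and for `G = A_n × K`) `L(s, X|_G)` is holomorphic and nonzero in the region of
`x = n ^ (c √n / 7)`, whatever the fields `E` and `K` are.

(3) For all `n` and `D` there is a set `X` of at most `(n + 1) ^ ((2 D + 1) log₂ (n + 1) + 4 D + 4)`
irreducible characters of `S_n` (none of which is `YoungFree`) such that for all irreducible `χ`
outside `X`, all Galois extensions `E/K` with group `S_n × K'`, all irreducible `χ ⊗ κ`: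
`L(s, χ ⊗ κ)` is holomorphic and nonzero in the region of all `x` with `(1 + √x) ^ 2 ≤ n ^ D`. -/
theorem result :
    (∀ (n t k : ℕ), 1 ≤ k →
      ∀ (Γ G : Type) [Group Γ] [Finite Γ] [Group G] [Finite G]
        (j : Perm (Fin n) →* Γ) (ι : G →* Γ), Central j → Function.Injective ι →
      ∀ x : ℝ, ((n + k - 1).choose n : ℝ) * Nat.card Γ * (1 + √x) ^ 4
          < (k : ℝ) ^ (t + 1) * Nat.card G →
      ∀ (E : Type) [Field E] [NumberField E] (s₀ : ℂ), InRegion E x s₀ →
      ∀ A : ArtinData G s₀, HasTop E A →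
      ∀ X : Γ → ℂ, Thick j ι t X → meromorphicOrderAt (A.L fun g => X (ι g)) s₀ = 0) ∧
    (∀ c : ℝ, 0 < c → ∃ N : ℕ, ∀ n ≥ N, ∀ t : ℕ, c * √n ≤ t →
      ∀ (Γ G : Type) [Group Γ] [Finite Γ] [Group G] [Finite G]
        (j : Perm (Fin n) →* Γ) (ι : G →* Γ), Central j → Function.Injective ι →
        Nat.card Γ ≤ 2 * Nat.card G →
      ∀ (E : Type) [Field E] [NumberField E] (s₀ : ℂ), InRegion E ((n : ℝ) ^ (c * √n / 7)) s₀ →
      ∀ A : ArtinData G s₀, HasTop E A →
      ∀ X : Γ → ℂ, Thick j ι t X → meromorphicOrderAt (A.L fun g => X (ι g)) s₀ = 0) ∧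
    (∀ n D : ℕ, 1 ≤ n →
      ∃ X : Finset (Perm (Fin n) → ℂ),
        X.card ≤ (n + 1) ^ ((2 * D + 1) * Nat.log 2 (n + 1) + 4 * D + 4) ∧
        (∀ χ ∈ X, χ ∈ Irr (Perm (Fin n)) ∧
          ¬ YoungFree ((2 * D + 1) * (Nat.log 2 (n + 1) + 1) + 1) χ) ∧
        ∀ χ ∈ Irr (Perm (Fin n)), χ ∉ X →
          ∀ (K G : Type) [Group K] [Finite K] [Group G] [Finite G] (e : G ≃* Perm (Fin n) × K)
            (κ : K → ℂ), (fun g => χ (e g).1 * κ (e g).2) ∈ Irr G →
          ∀ (E : Type) [Field E] [NumberField E] (x : ℝ), (1 + √x) ^ 2 ≤ (n : ℝ) ^ D →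
          ∀ s₀ : ℂ, InRegion E x s₀ → ∀ A : ArtinData G s₀, HasTop E A →
            meromorphicOrderAt (A.L fun g => χ (e g).1 * κ (e g).2) s₀ = 0) := by
  refine ⟨?_, ?_, ?_⟩
  · intro n t k hk Γ G _ _ _ _ j ι hj hι x hx E _ _ s₀ hs A hA X hX
    obtain ⟨r, hr, hrx⟩ := order_le hA hs
    refine thick_order_zero hj hι hk A hr hX ?_
    have h1 : ((n + k - 1).choose n : ℝ) * Nat.card Γ * (r : ℝ) ^ 2
        < (k : ℝ) ^ (t + 1) * Nat.card G := by
      refine lt_of_le_of_lt ?_ hx
      have h2 : (r : ℝ) ^ 2 ≤ (1 + √x) ^ 4 := by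
        calc (r : ℝ) ^ 2 ≤ ((1 + √x) ^ 2) ^ 2 := by gcongr
          _ = (1 + √x) ^ 4 := by ring
      gcongr
    exact_mod_cast h1
  · intro c hc
    obtain ⟨N, hN⟩ := regime_sqrt' c hc
    refine ⟨max N (max 2 ⌈(105 / c) ^ 2⌉₊), fun n hn t ht Γ G _ _ _ _ j ι hj hι hΓ E _ _ s₀ hs A hA
      X hX => ?_⟩
    have hnN : N ≤ n := le_trans (le_max_left _ _) hn
    have hn2 : 2 ≤ n := le_trans (le_trans (le_max_left _ _) (le_max_right _ _)) hn
    have hnc : (105 / c) ^ 2 ≤ (n : ℝ) :=
      (Nat.le_ceil _).trans (by exact_mod_cast le_trans (le_trans (le_max_right _ _) (le_max_right _ _)) hn)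
    obtain ⟨r, hr, hrx⟩ := order_le hA hs
    obtain ⟨k, hk, hlt⟩ := hN n hnN t ht
    refine thick_order_zero hj hι hk A hr hX ?_
    have hn1 : (1 : ℝ) ≤ n := by exact_mod_cast (by omega : 1 ≤ n)
    have hn2' : (2 : ℝ) ≤ n := by exact_mod_cast hn2
    have hc5 : 5 ≤ c * √n / 21 := by
      have h1 : 105 / c ≤ √n := Real.le_sqrt_of_sq_le hnc
      rw [div_le_iff₀ hc] at h1
      linarith
    set y : ℝ := (n : ℝ) ^ (c * √n / 7) with hy
    have hy1 : 1 ≤ y := Real.one_le_rpow hn1 (by positivity)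
    have hsq : √y * √y = y := Real.mul_self_sqrt (by linarith)
    have hsy : 1 ≤ √y := by
      rw [← Real.sqrt_one]
      exact Real.sqrt_le_sqrt hy1
    have h4 : (1 + √y) ^ 4 ≤ 16 * y ^ 2 := by
      calc (1 + √y) ^ 4 ≤ (2 * √y) ^ 4 := by
            have : 1 + √y ≤ 2 * √y := by linarith
            gcongr
        _ = 16 * (√y * √y) ^ 2 := by ring
        _ = 16 * y ^ 2 := by rw [hsq]
    have h5 : 32 * y ^ 2 ≤ (n : ℝ) ^ (c * √n / 3) := by
      have h6 : (n : ℝ) ^ (c * √n / 3) = (n : ℝ) ^ (c * √n / 21) * y ^ 2 := by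
        rw [hy, ← Real.rpow_natCast, ← Real.rpow_mul (by linarith), ← Real.rpow_add (by linarith)]
        congr 1
        push_cast
        ring
      rw [h6]
      have h7 : (32 : ℝ) ≤ (n : ℝ) ^ (c * √n / 21) := by
        calc (32 : ℝ) = (2 : ℝ) ^ (5 : ℝ) := by norm_num
          _ ≤ (n : ℝ) ^ (5 : ℝ) := by gcongr
          _ ≤ (n : ℝ) ^ (c * √n / 21) := Real.rpow_le_rpow_of_exponent_le hn1 hc5
      gcongr
    have hr2 : (r : ℝ) ^ 2 * Nat.card Γ ≤ Nat.card G * (n : ℝ) ^ (c * √n / 3) := by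
      have h8 : (Nat.card Γ : ℝ) ≤ 2 * Nat.card G := by exact_mod_cast hΓ
      calc (r : ℝ) ^ 2 * Nat.card Γ ≤ ((1 + √y) ^ 2) ^ 2 * (2 * Nat.card G) := by gcongr
        _ = (1 + √y) ^ 4 * 2 * Nat.card G := by ring
        _ ≤ (16 * y ^ 2) * 2 * Nat.card G := by gcongr
        _ = Nat.card G * (32 * y ^ 2) := by ring
        _ ≤ _ := by gcongr
    have h1 : (0 : ℝ) < Nat.card G := by exact_mod_cast Nat.card_pos
    have h3 : (0 : ℝ) ≤ ((n + k - 1).choose n : ℝ) := by positivity
    have h2 : ((n + k - 1).choose n : ℝ) * (Nat.card Γ : ℝ) * (r : ℝ) ^ 2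
        < (k : ℝ) ^ (t + 1) * Nat.card G := by
      calc ((n + k - 1).choose n : ℝ) * (Nat.card Γ : ℝ) * (r : ℝ) ^ 2
          = ((n + k - 1).choose n : ℝ) * ((r : ℝ) ^ 2 * Nat.card Γ) := by ring
        _ ≤ ((n + k - 1).choose n : ℝ) * (Nat.card G * (n : ℝ) ^ (c * √n / 3)) :=
            mul_le_mul_of_nonneg_left hr2 h3
        _ = (((n + k - 1).choose n : ℝ) * (n : ℝ) ^ (c * √n / 3)) * Nat.card G := by ring
        _ < _ := mul_lt_mul_of_pos_right hlt h1
    exact_mod_cast h2
  · intro n D hn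
    obtain ⟨X, hcard, hX, hout⟩ := almost_pow n D (n ^ D) hn le_rfl
    refine ⟨X, hcard, hX, fun χ hχ hχX K G _ _ _ _ e κ hirr E _ _ x hx s₀ hs A hA => ?_⟩
    obtain ⟨r, hr, hrx⟩ := order_le hA hs
    have h1 : (r : ℝ) ≤ ((n ^ D : ℕ) : ℝ) := by
      push_cast
      exact hrx.trans hx
    exact hout χ hχ hχX K G e κ hirr s₀ A r (by exact_mod_cast h1) hr

end Pool.Agent.Results.MP_d2121a_nt.WideRegion
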